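import Pool.Agent.K3h10.SH.Win

/-!
# Multiplicities for which the uniform conjecture holds for EVERY number of points

The set of the multiplicities `m` for which the uniform Harbourne-Hirschowitz conjecture holds for
every number `n > 9` of general points and in every degree `d` has positive lower density.

For `n ≥ 37`, for `n = 13, 21` and for squares there is nothing to do (starting theorems). For the
other 22 values of `n` the starting theorems leave a degree `d` open only if the odd number `2 d + 3` is
in a window around `√n (2 m + 1)`. The multiplicity `m₀ = 74602991693235067300949` (found by lattice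
reduction) has no such degree for all 22 values at once, with a margin; and the times `k` of
simultaneous recurrence of the rotations by `√n` have positive lower density (pigeonhole), so
`m₀ + k` is good for all of them.
-/

set_option autoImplicit false

namespace Pool.Agent.Results.MP_d03834_ag.AllPointsManyMultiplicities

open MvPolynomial Filter

/-- For general points `P 1, …, P n` (outside the hypersurface `F = 0` of the space of all
configurations) the space of the forms of degree `d` which vanish to order at least `m` at all the
points has the expected dimension, for every degree `d`. -/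
def AllDegrees (n m : ℕ) : Prop :=
  ∃ F : MvPolynomial (Fin n × Fin 2) ℂ, F ≠ 0 ∧
    ∀ P : Fin n → Fin 2 → ℂ,
      MvPolynomial.eval (fun ij : Fin n × Fin 2 => P ij.1 ij.2) F ≠ 0 →
      ∀ d : ℕ,
        Module.finrank ℂ
          ↥(MvPolynomial.homogeneousSubmodule (Fin 3) ℂ d ⊓
            Submodule.restrictScalars ℂ
              (⨅ i : Fin n,
                (Ideal.span
                  ({MvPolynomial.X 0 - MvPolynomial.C (P i 0) * MvPolynomial.X 2,
                    MvPolynomial.X 1 - MvPolynomial.C (P i 1) * MvPolynomial.X 2} :
                    Set (MvPolynomial (Fin 3) ℂ))) ^ m))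
        = Nat.choose (d + 2) 2 - n * Nat.choose (m + 1) 2

theorem all_of {n m : ℕ} (h : K3h10.SH.AllQ n m) : AllDegrees n m := by
  obtain ⟨F, hF, hF'⟩ := h
  refine ⟨F.map (algebraMap ℚ ℂ), H932R3.map_ne_zero_of hF, fun P hP d => ?_⟩
  rw [MvPolynomial.eval_map] at hP
  have h1 := hF' P hP d
  unfold H932R3.ExpDim at h1
  rw [Finset.sum_const, Finset.card_univ, Fintype.card_fin, smul_eq_mul] at h1
  exact h1

open Classical in
/-- **For a set of multiplicities `m` of positive lower density (at least `10 ^ (-53)`) the uniform
Harbourne-Hirschowitz conjecture holds for every number `n > 9` of points and in every degree.** -/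
theorem result : ∀ᶠ M : ℕ in atTop, (M : ℝ) / 10 ^ 53 ≤
    (((Finset.Icc 1 M).filter fun m => ∀ n : ℕ, 9 < n → AllDegrees n m).card : ℝ) := by
  filter_upwards [K3h10.SH.dens_good] with M hM
  refine hM.trans ?_
  have h1 : ((Finset.Icc 1 M).filter fun m => ∀ n : ℕ, 9 < n → K3h10.SH.AllQ n m) ⊆
      ((Finset.Icc 1 M).filter fun m => ∀ n : ℕ, 9 < n → AllDegrees n m) := by
    intro m hm
    rw [Finset.mem_filter] at hm ⊢
    exact ⟨hm.1, fun n hn => all_of (hm.2 n hn)⟩
  exact_mod_cast Finset.card_le_card h1

end Pool.Agent.Results.MP_d03834_ag.AllPointsManyMultiplicities
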