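import Pool.Agent.K3h87.HH.Ten
import Pool.Agent.K3h87.HH.Asym

/-!
MP_d03834_ag: upper bounds in ALL degrees for uniform fat points at `n > 9` general points of the
plane, in particular in the one degree which the theorem on all degrees but one leaves open.

Let `e = (d+1)(d+2)/2 - n m(m+1)/2`. For `n > 9` general points, every multiplicity `m` and EVERY
degree `d` the dimension `H_I(d)` of the space of forms of degree `d` with multiplicity at least `m`
at the points is at most `max(0, e) + max(0, (d + 1 - |e|)/2)`; there are better bounds of Clifford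
type: if `n` is not a square, then `H_I(d) ≤ max(0, e) + ((n - 3 √n)/2 + ε) m + c(n, ε)`, and for ten
points `H_I(d) ≤ max(0, e) + 9 m / 25 + 13`.
-/

set_option autoImplicit false

open MvPolynomial

namespace Pool.Agent.Results.MP_d03834_ag.CriticalDegree

/-- `H_I(d)` for the points `(P i 0 : P i 1 : 1)` of the plane and the multiplicity `m`: the dimension
of the space of the forms of degree `d` in the intersection of the `m`-th powers of the ideals of the
points. -/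
noncomputable def hilbert {n : ℕ} (P : Fin n → Fin 2 → ℂ) (m d : ℕ) : ℕ :=
  Module.finrank ℂ
    ↥(homogeneousSubmodule (Fin 3) ℂ d ⊓
      Submodule.restrictScalars ℂ
        (⨅ i : Fin n,
          (Ideal.span
            ({X 0 - C (P i 0) * X 2, X 1 - C (P i 1) * X 2} :
              Set (MvPolynomial (Fin 3) ℂ))) ^ m))

/-- `e(m, d) = (d+1)(d+2)/2 - n m(m+1)/2` -/
noncomputable def expected (n m d : ℕ) : ℝ :=
  ((d : ℝ) + 1) * (d + 2) / 2 - n * (m * (m + 1) / 2)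

/-- Upper bounds for the Hilbert function of `n > 9` general points of multiplicity `m` in all
degrees. -/
theorem result (n : ℕ) (hn : 9 < n) (ε : ℝ) (hε : 0 < ε) :
    ∃ c : ℝ, ∀ B : ℕ, ∃ F : MvPolynomial (Fin n × Fin 2) ℂ, F ≠ 0 ∧
      ∀ P : Fin n → Fin 2 → ℂ, eval (fun ij : Fin n × Fin 2 => P ij.1 ij.2) F ≠ 0 →
      ∀ m d : ℕ, 1 ≤ m → m ≤ B →
        (hilbert P m d : ℝ) ≤
          max 0 (expected n m d) + max 0 (((d : ℝ) + 1 - |expected n m d|) / 2) ∧
        (∀ k : ℕ, 1 ≤ k → k ≤ B → √(n : ℝ) - 3 < k * (d - √(n : ℝ) * m) →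
          (hilbert P m d : ℝ) ≤ expected n m d + (k - 1) * ((d : ℝ) ^ 2 - n * m ^ 2) / 2) ∧
        (∀ m' d' : ℕ, 1 ≤ m' → m' ≤ B → 1 ≤ expected n m' d' →
          √(n : ℝ) - 3 < ((d : ℝ) + d') - √(n : ℝ) * (m + m') →
          (hilbert P m d : ℝ) ≤ max 0 (expected n m d + ((d : ℝ) * d' - n * m * m'))) ∧
        (¬ IsSquare n → (hilbert P m d : ℝ) ≤
          max 0 (expected n m d) + ((n - 3 * √(n : ℝ)) / 2 + ε) * m + c) ∧
        (n = 10 → (hilbert P m d : ℝ) ≤ max 0 (expected n m d) + 9 / 25 * m + 13) := by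
  have hn' : 10 ≤ n := hn
  obtain ⟨c, M₀, hc⟩ : ∃ (c : ℝ) (M₀ : ℕ), ¬ IsSquare n → ∀ m : ℕ, 1 ≤ m →
      ∀ P : Fin n → Fin 2 → ℂ, (∀ k : ℕ, 1 ≤ k → k ≤ m + M₀ → K3h87.HH.Good n P k) → ∀ d : ℕ,
      (Module.finrank ℂ (K3h87.HH.V (K3h87.HH.JJ P m) d) : ℝ) ≤
        max 0 (K3h87.HH.ee n m d) + ((n - 3 * √(n : ℝ)) / 2 + ε) * m + c := by
    by_cases hsq : IsSquare n
    · exact ⟨0, 0, fun h => absurd hsq h⟩
    · obtain ⟨c, M₀, h⟩ := K3h87.HH.asym (L := ℂ) hn' hsq hε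
      exact ⟨c, M₀, fun _ => h⟩
  refine ⟨c, fun B => ?_⟩
  choose! F hF0 hF using fun (M : ℕ) (hM : 1 ≤ M) =>
    TH641.NW.expDim_uni_win2 (L := ℂ) hn' hM
  obtain ⟨B', hB'⟩ : ∃ B', B' = B * B + B + 36 + M₀ := ⟨_, rfl⟩
  have hprod : (∏ M ∈ Finset.Icc 1 B', F M) ≠ 0 := by
    rw [Finset.prod_ne_zero_iff]
    intro M hM
    exact hF0 M (Finset.mem_Icc.1 hM).1
  refine ⟨(∏ M ∈ Finset.Icc 1 B', F M).map (algebraMap ℚ ℂ), H932R3.map_ne_zero_of hprod,
    fun P hP m d hm hmB => ?_⟩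
  rw [MvPolynomial.eval_map] at hP
  have hP' : MvPolynomial.aeval (fun ij : Fin n × Fin 2 => P ij.1 ij.2)
      (∏ M ∈ Finset.Icc 1 B', F M) ≠ 0 := hP
  rw [map_prod, Finset.prod_ne_zero_iff] at hP'
  have hgood : ∀ M : ℕ, 1 ≤ M → M ≤ B' → K3h87.HH.Good n P M := by
    intro M h1 h2 d hd
    exact hF M h1 P (hP' M (Finset.mem_Icc.2 ⟨h1, h2⟩)) d hd
  have hm' : m ≤ B' := by omega
  refine ⟨?_, ?_, ?_, ?_, ?_⟩
  · exact K3h87.HH.main_one hn' hm P (K3h87.HH.good_crit hn' (hgood m hm hm')) d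
  · intro k hk hkB hkd
    have hkm : 1 ≤ k * m := Nat.mul_pos hk hm
    have hkm' : k * m ≤ B' := by
      have := Nat.mul_le_mul hkB hmB
      omega
    have h1 := K3h87.HH.main_two (d := d) hn' hm hk P
      (fun d' hd' => hgood (k * m) hkm hkm' d' (Or.inr hd')) hkd
    refine h1.trans (le_of_eq ?_)
    unfold expected
    ring
  · intro m' d' h1 h2 h3 h4
    have h5 : B ≤ B * B := Nat.le_mul_self B
    exact K3h87.HH.main_three hn' (hgood m' h1 (by omega)) (hgood (m + m') (by omega) (by omega))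
      h3 h4
  · intro hsq
    exact hc hsq m hm P (fun k h1 h2 => hgood k h1 (by omega)) d
  · intro h10
    subst h10
    exact K3h87.HH.ten hm (fun M h1 h2 => hgood M h1 (by omega)) d

end Pool.Agent.Results.MP_d03834_ag.CriticalDegree
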