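import Pool.Agent.K3h10.SH.Win
import Pool.Agent.R332.TW.Rot

/-!
# Every number of points: the conjecture in every degree for a positive proportion of multiplicities

For every `n ≥ 10` the set of the multiplicities `m` for which the space of the plane curves of degree
`d` with `n` general points of multiplicity `m` does not have the expected dimension in EVERY degree `d`
has upper density at most `bound n`, which is less than `0.163` for ten points and less than `0.962` for
every `n ≥ 10`.

For the values of `n` for which one degree is open in general (starting theorem `expDim_uni_win2`) this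
degree `d` is such that the odd number `2 d + 3` lies in a window of the length `2 bound n` around
`√n (2 m + 1)`, and the multiples of the irrational number `√n` are equidistributed modulo one. (For
`n = 11` and `n = 15` the starting file `DensityOfMultiplicities` has the smaller bound
`(√n - 3) / 6`.)
-/

set_option autoImplicit false

namespace Pool.Agent.Results.MP_d03834_ag.DensityForEachNumber

open MvPolynomial Filter

/-- For general points `P 1, …, P n` (outside the hypersurface `F = 0` of the space of all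
configurations) the space of the forms of degree `d` which vanish to order at least `m` at all the
points has the expected dimension, for every degree `d`. -/
def AllDegrees (n m : ℕ) : Prop :=
  ∃ F : MvPolynomial (Fin n × Fin 2) ℂ, F ≠ 0 ∧
    ∀ P : Fin n → Fin 2 → ℂ,
      MvPolynomial.eval (fun ij : Fin n × Fin 2 => P ij.1 ij.2) F ≠ 0 →
      ∀ d : ℕ,
        Module.finrank ℂ
          ↥(MvPolynomial.homogeneousSubmodule (Fin 3) ℂ d ⊓
            Submodule.restrictScalars ℂ
              (⨅ i : Fin n,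
                (Ideal.span
                  ({MvPolynomial.X 0 - MvPolynomial.C (P i 0) * MvPolynomial.X 2,
                    MvPolynomial.X 1 - MvPolynomial.C (P i 1) * MvPolynomial.X 2} :
                    Set (MvPolynomial (Fin 3) ℂ))) ^ m))
        = Nat.choose (d + 2) 2 - n * Nat.choose (m + 1) 2

/-- The bound for the density of the multiplicities which are not settled. -/
noncomputable def bound (n : ℕ) : ℝ :=
  (min (√(n : ℝ) - 3) (2 / 3 + 9 / (4 * √(n : ℝ))) +
    min (√(n : ℝ) - 3) (2 / 3 + 1 / (4 * √(n : ℝ)))) / 2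

theorem all_of {n m : ℕ} (h : K3h10.SH.AllQ n m) : AllDegrees n m := by
  obtain ⟨F, hF, hF'⟩ := h
  refine ⟨F.map (algebraMap ℚ ℂ), H932R3.map_ne_zero_of hF, fun P hP d => ?_⟩
  rw [MvPolynomial.eval_map] at hP
  have h1 := hF' P hP d
  unfold H932R3.ExpDim at h1
  rw [Finset.sum_const, Finset.card_univ, Fintype.card_fin, smul_eq_mul] at h1
  exact h1

theorem exists_degree {n m : ℕ} (hn : 10 ≤ n) (hm : 1 ≤ m) (h : ¬ AllDegrees n m) :
    ∃ d : ℕ, √(n : ℝ) * (2 * m + 1) - (2 * d + 3) ≤ K3h10.SH.wa n ∧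
      (2 * (d : ℝ) + 3) - √(n : ℝ) * (2 * m + 1) ≤ K3h10.SH.wb n := by
  by_contra hcon
  push Not at hcon
  apply h
  apply all_of
  obtain ⟨F, hF, hF'⟩ := TH641.NW.expDim_uni_win2 (L := ℂ) hn hm
  refine ⟨F, hF, fun P hP d => hF' P hP d ?_⟩
  by_cases h1 : √(n : ℝ) * (2 * m + 1) - (2 * d + 3) ≤ K3h10.SH.wa n
  · exact Or.inr (hcon d h1)
  · exact Or.inl (not_le.1 h1)

/-- shift from `1, …, M` to `0, …, M - 1` -/
theorem count_shift (p q : ℕ → Prop) [DecidablePred p] [DecidablePred q] (M : ℕ)
    (h : ∀ m : ℕ, p (m + 1) → q m) :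
    ((Finset.Icc 1 M).filter p).card ≤ ((Finset.range M).filter q).card := by
  have e : (Finset.Icc 1 M).filter p ⊆ ((Finset.range M).filter q).image (· + 1) := by
    intro m hm
    rw [Finset.mem_filter, Finset.mem_Icc] at hm
    rw [Finset.mem_image]
    refine ⟨m - 1, ?_, by omega⟩
    rw [Finset.mem_filter, Finset.mem_range]
    refine ⟨by omega, h _ ?_⟩
    have : m - 1 + 1 = m := by omega
    rw [this]
    exact hm.2
  exact (Finset.card_le_card e).trans Finset.card_image_le

theorem wab {n : ℕ} (hn : 10 ≤ n) : 0 ≤ (K3h10.SH.wa n + K3h10.SH.wb n) / 2 := by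
  have h1 : 3 ≤ √(n : ℝ) := by
    apply Real.le_sqrt_of_sq_le
    have : (10 : ℝ) ≤ n := by exact_mod_cast hn
    linarith
  have h2 : 0 ≤ K3h10.SH.wa n := le_min (by linarith) (by positivity)
  have h3 : 0 ≤ K3h10.SH.wb n := le_min (by linarith) (by positivity)
  linarith

open Classical in
theorem dens_one {n : ℕ} (hn : 10 ≤ n) (hsq : ¬ IsSquare n) {c : ℝ}
    (hc : (K3h10.SH.wa n + K3h10.SH.wb n) / 2 < c) : ∀ᶠ M : ℕ in atTop,
      (((Finset.Icc 1 M).filter fun m => ¬ AllDegrees n m).card : ℝ) < c * M := by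
  have hirr : Irrational √(n : ℝ) := by
    rw [irrational_sqrt_natCast_iff]
    exact hsq
  have h1 := R332.TW.rotation_freq hirr (3 * √(n : ℝ) / 2 - 3 / 2 + K3h10.SH.wb n / 2)
    (wab hn) hc
  filter_upwards [h1] with M hM
  refine lt_of_le_of_lt ?_ hM
  have h2 := count_shift (fun m => ¬ AllDegrees n m) (fun m : ℕ => ∃ z : ℤ,
    0 ≤ √(n : ℝ) * m + (3 * √(n : ℝ) / 2 - 3 / 2 + K3h10.SH.wb n / 2) - z ∧
    √(n : ℝ) * m + (3 * √(n : ℝ) / 2 - 3 / 2 + K3h10.SH.wb n / 2) - z ≤
      (K3h10.SH.wa n + K3h10.SH.wb n) / 2) M (by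
      intro m hm
      obtain ⟨d, h3, h4⟩ := exists_degree hn (by omega) hm
      push_cast at h3 h4
      refine ⟨d, ?_, ?_⟩
      · push_cast
        linarith
      · push_cast
        linarith)
  exact_mod_cast h2

theorem sqrt_bd {n : ℕ} {s t : ℝ} (ht : 0 ≤ t) (h1 : s ^ 2 ≤ n) (h2 : (n : ℝ) ≤ t ^ 2) :
    s ≤ √(n : ℝ) ∧ √(n : ℝ) ≤ t :=
  ⟨Real.le_sqrt_of_sq_le h1, (Real.sqrt_le_left ht).2 h2⟩

theorem wa_le {n : ℕ} {s : ℝ} (hs : 0 < s) (h : s ≤ √(n : ℝ)) :
    K3h10.SH.wa n ≤ 2 / 3 + 9 / (4 * s) := by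
  refine (min_le_right _ _).trans ?_
  have h3 : 9 / (4 * √(n : ℝ)) ≤ 9 / (4 * s) :=
    div_le_div_of_nonneg_left (by norm_num) (by linarith) (by linarith)
  linarith

theorem wb_le {n : ℕ} {s : ℝ} (hs : 0 < s) (h : s ≤ √(n : ℝ)) :
    K3h10.SH.wb n ≤ 2 / 3 + 1 / (4 * s) := by
  refine (min_le_right _ _).trans ?_
  have h3 : 1 / (4 * √(n : ℝ)) ≤ 1 / (4 * s) :=
    div_le_div_of_nonneg_left (by norm_num) (by linarith) (by linarith)
  linarith

theorem bound_eq (n : ℕ) : bound n = (K3h10.SH.wa n + K3h10.SH.wb n) / 2 := rfl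

theorem bound_lt {n : ℕ} (hn : 10 ≤ n) : bound n < 0.962 := by
  rw [bound_eq]
  have ha : K3h10.SH.wa n ≤ √(n : ℝ) - 3 := min_le_left _ _
  have hb : K3h10.SH.wb n ≤ √(n : ℝ) - 3 := min_le_left _ _
  rcases Nat.lt_or_ge n 16 with h | h
  · have h3 : √(n : ℝ) ≤ 3.9 := by
      rw [Real.sqrt_le_left (by norm_num)]
      have : (n : ℝ) ≤ 15 := by exact_mod_cast (by omega : n ≤ 15)
      norm_num
      linarith
    norm_num at h3 ⊢
    linarith
  rcases Nat.lt_or_ge n 18 with h' | h'
  · have h3 : √(n : ℝ) ≤ 4.124 := by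
      rw [Real.sqrt_le_left (by norm_num)]
      have : (n : ℝ) ≤ 17 := by exact_mod_cast (by omega : n ≤ 17)
      norm_num
      linarith
    have h4 : (4 : ℝ) ≤ √(n : ℝ) := by
      apply Real.le_sqrt_of_sq_le
      have : (16 : ℝ) ≤ n := by exact_mod_cast h
      norm_num
      linarith
    have h5 := wb_le (n := n) (s := 4) (by norm_num) h4
    norm_num at h3 h5 ⊢
    linarith
  rcases Nat.lt_or_ge n 19 with h'' | h''
  · have h18 : n = 18 := by omega
    subst h18
    obtain ⟨h3, h4⟩ := sqrt_bd (n := 18) (s := 4.242) (t := 4.243) (by norm_num) (by norm_num)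
      (by norm_num)
    have h5 := wb_le (n := 18) (s := 4.242) (by norm_num) h3
    have h6 := wa_le (n := 18) (s := 4.242) (by norm_num) h3
    norm_num at h5 h6 ⊢
    linarith
  · have h3 : (4.358 : ℝ) ≤ √(n : ℝ) := by
      apply Real.le_sqrt_of_sq_le
      have : (19 : ℝ) ≤ n := by exact_mod_cast h''
      norm_num
      linarith
    have h5 := wb_le (n := n) (s := 4.358) (by norm_num) h3
    have h6 := wa_le (n := n) (s := 4.358) (by norm_num) h3
    norm_num at h5 h6 ⊢
    linarith

theorem bound_ten : bound 10 < 0.163 := by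
  rw [bound_eq]
  have ha : K3h10.SH.wa 10 ≤ √((10 : ℕ) : ℝ) - 3 := min_le_left _ _
  have hb : K3h10.SH.wb 10 ≤ √((10 : ℕ) : ℝ) - 3 := min_le_left _ _
  have h3 : √((10 : ℕ) : ℝ) ≤ 3.1623 := by
    rw [Real.sqrt_le_left (by norm_num)]
    norm_num
  have h4 : K3h10.SH.wa 10 ≤ 3.1623 - 3 := ha.trans (sub_le_sub_right h3 3)
  have h5 : K3h10.SH.wb 10 ≤ 3.1623 - 3 := hb.trans (sub_le_sub_right h3 3)
  norm_num at h4 h5 ⊢
  linarith

open Classical in
/-- **For every number `n ≥ 10` of points the conjecture holds in every degree for all multiplicities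
`m` outside a set of upper density at most `bound n < 0.962`; for ten points the bound is less than
`0.163`.** -/
theorem result :
    (∀ n : ℕ, 10 ≤ n → ∀ c : ℝ, bound n < c → ∀ᶠ M : ℕ in atTop,
      (((Finset.Icc 1 M).filter fun m => ¬ AllDegrees n m).card : ℝ) < c * M) ∧
    bound 10 < 0.163 ∧ ∀ n : ℕ, 10 ≤ n → bound n < 0.962 := by
  refine ⟨?_, bound_ten, fun n hn => bound_lt hn⟩
  intro n hn c hc
  rw [bound_eq] at hc
  by_cases hsq : IsSquare n
  · filter_upwards [eventually_gt_atTop 0] with M hM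
    have h2 : (Finset.Icc 1 M).filter (fun m => ¬ AllDegrees n m) = ∅ := by
      rw [Finset.filter_eq_empty_iff]
      intro m hm
      rw [not_not]
      exact all_of (K3h10.SH.all_closed hn (Finset.mem_Icc.1 hm).1 (Or.inr (Or.inr (Or.inr hsq))))
    rw [h2, Finset.card_empty, Nat.cast_zero]
    have h3 : (0 : ℝ) < M := by exact_mod_cast hM
    have h4 : 0 < c := lt_of_le_of_lt (wab hn) hc
    positivity
  · exact dens_one hn hsq hc

end Pool.Agent.Results.MP_d03834_ag.DensityForEachNumber
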